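import Pool.Agent.Helper28.TH.StN

/-!
# Project TH, low levels, module CA5-H: the gluing argument

The proof of Pool/Agent/Helper92/LV/M_CA5.lean with `E(w) = EE n b (w/√2)`.
-/

set_option autoImplicit false

namespace Pool.Agent.Helper7.THN

open Pool.Agent.Helper28.TH Pool.Agent.Helper28.WK Pool.Agent.Helper28.LV Pool.Agent.Helper93.TLH
open Pool.Agent.Helper14.WK
open Pool.Agent.Helper14.CV (G0 Homog EqC act StFar)

private lemma im_neg_inv (z : ℂ) : (-1 / z).im = z.im / Complex.normSq z := by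
  rw [div_eq_mul_inv, neg_one_mul, Complex.neg_im, Complex.inv_im]
  ring

private lemma im_inv' (z : ℂ) : (1 / z).im = -z.im / Complex.normSq z := by
  rw [one_div, Complex.inv_im]

private lemma isClosed_up : IsClosed {z : ℂ | 0 ≤ z.im} :=
  isClosed_le continuous_const Complex.continuous_im

private lemma isClosed_dn : IsClosed {z : ℂ | z.im ≤ 0} :=
  isClosed_le Complex.continuous_im continuous_const

private lemma isOpen_up : IsOpen {z : ℂ | 0 < z.im} :=
  isOpen_lt continuous_const Complex.continuous_im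

private lemma isOpen_dn : IsOpen {z : ℂ | z.im < 0} :=
  isOpen_lt Complex.continuous_im continuous_const

open Classical in
/-- The glued function. -/
private noncomputable def RR (n : ℕ) (E : ℂ → ℂ) (P : Polynomial ℂ) (z : ℂ) : ℂ :=
  if 0 ≤ z.im then E z - z ^ n * E (-1 / z) else z ^ n * E (1 / z) - E (-z) - P.eval z

private lemma RR_up (n : ℕ) (E : ℂ → ℂ) (P : Polynomial ℂ) {z : ℂ} (hz : 0 ≤ z.im) :
    RR n E P z = E z - z ^ n * E (-1 / z) := by
  unfold RR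
  rw [if_pos hz]

private lemma RR_dn (n : ℕ) (E : ℂ → ℂ) (P : Polynomial ℂ)
    (h : ∀ x : ℝ, x ≠ 0 → (x : ℂ) ^ n * (E (-1 / (x : ℂ)) + E (1 / (x : ℂ))) =
      E x + E (-x) + P.eval (x : ℂ)) {z : ℂ} (hz : z.im ≤ 0) (h0 : z ≠ 0) :
    RR n E P z = z ^ n * E (1 / z) - E (-z) - P.eval z := by
  unfold RR
  split_ifs with h1
  · have h2 : z.im = 0 := le_antisymm hz h1
    have h3 : ((z.re : ℝ) : ℂ) = z := by
      apply Complex.ext
      · simp
      · simp [h2]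
    have h4 : z.re ≠ 0 := by
      intro h5
      rw [h5] at h3
      exact h0 (by rw [← h3]; simp)
    have h6 := h z.re h4
    rw [h3] at h6
    linear_combination -h6
  · rfl

private lemma cont_up (n : ℕ) (E : ℂ → ℂ) (hE : ContinuousOn E {z : ℂ | 0 ≤ z.im}) {z : ℂ}
    (hz : 0 ≤ z.im) (h0 : z ≠ 0) :
    ContinuousWithinAt (fun w => E w - w ^ n * E (-1 / w)) {z : ℂ | 0 ≤ z.im} z := by
  refine (hE z hz).sub ((continuous_id.pow n).continuousWithinAt.mul ?_)
  have h1 : ContinuousWithinAt (fun w : ℂ => -1 / w) {z : ℂ | 0 ≤ z.im} z :=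
    (continuousAt_const.div continuousAt_id h0).continuousWithinAt
  refine ContinuousWithinAt.comp (t := {z : ℂ | 0 ≤ z.im}) (hE (-1 / z) ?_) h1 ?_
  · show 0 ≤ (-1 / z).im
    rw [im_neg_inv]
    exact div_nonneg hz (Complex.normSq_nonneg z)
  · intro w hw
    show 0 ≤ (-1 / w).im
    rw [im_neg_inv]
    exact div_nonneg hw (Complex.normSq_nonneg w)

private lemma cont_dn (n : ℕ) (E : ℂ → ℂ) (P : Polynomial ℂ)
    (hE : ContinuousOn E {z : ℂ | 0 ≤ z.im}) {z : ℂ} (hz : z.im ≤ 0) (h0 : z ≠ 0) :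
    ContinuousWithinAt (fun w => w ^ n * E (1 / w) - E (-w) - P.eval w) {z : ℂ | z.im ≤ 0} z := by
  refine (((continuous_id.pow n).continuousWithinAt.mul ?_).sub ?_).sub
    P.continuous.continuousWithinAt
  · have h1 : ContinuousWithinAt (fun w : ℂ => 1 / w) {z : ℂ | z.im ≤ 0} z :=
      (continuousAt_const.div continuousAt_id h0).continuousWithinAt
    refine ContinuousWithinAt.comp (t := {z : ℂ | 0 ≤ z.im}) (hE (1 / z) ?_) h1 ?_
    · show 0 ≤ (1 / z).im
      rw [im_inv']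
      exact div_nonneg (by linarith) (Complex.normSq_nonneg z)
    · intro w hw
      have hw' : w.im ≤ 0 := hw
      show 0 ≤ (1 / w).im
      rw [im_inv']
      exact div_nonneg (by linarith) (Complex.normSq_nonneg w)
  · have h1 : ContinuousWithinAt (fun w : ℂ => -w) {z : ℂ | z.im ≤ 0} z :=
      continuous_neg.continuousWithinAt
    refine ContinuousWithinAt.comp (t := {z : ℂ | 0 ≤ z.im}) (hE (-z) ?_) h1 ?_
    · show 0 ≤ (-z).im
      rw [Complex.neg_im]
      linarith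
    · intro w hw
      have hw' : w.im ≤ 0 := hw
      show 0 ≤ (-w).im
      rw [Complex.neg_im]
      linarith

private lemma RR_cont (n : ℕ) (E : ℂ → ℂ) (P : Polynomial ℂ)
    (hE : ContinuousOn E {z : ℂ | 0 ≤ z.im})
    (h : ∀ x : ℝ, x ≠ 0 → (x : ℂ) ^ n * (E (-1 / (x : ℂ)) + E (1 / (x : ℂ))) =
      E x + E (-x) + P.eval (x : ℂ)) : ContinuousOn (RR n E P) {0}ᶜ := by
  intro z hz
  have h0 : z ≠ 0 := hz
  have h1 : ContinuousWithinAt (RR n E P) {z : ℂ | 0 ≤ z.im} z := by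
    by_cases hz' : 0 ≤ z.im
    · refine (cont_up n E hE hz' h0).congr (fun w hw => RR_up n E P hw) (RR_up n E P hz')
    · refine continuousWithinAt_of_notMem_closure ?_
      rw [isClosed_up.closure_eq]
      exact hz'
  have h2 : ContinuousWithinAt (RR n E P) {z : ℂ | z.im ≤ 0} z := by
    by_cases hz' : z.im ≤ 0
    · have h3 : ContinuousWithinAt (RR n E P) ({z : ℂ | z.im ≤ 0} ∩ {0}ᶜ) z := by
        refine ((cont_dn n E P hE hz' h0).mono Set.inter_subset_left).congr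
          (fun w hw => RR_dn n E P h hw.1 hw.2) (RR_dn n E P h hz' h0)
      have h4 : {z : ℂ | z.im ≤ 0} ∩ {0}ᶜ ∈ nhdsWithin z {z : ℂ | z.im ≤ 0} :=
        Filter.inter_mem self_mem_nhdsWithin
          (mem_nhdsWithin_of_mem_nhds (isOpen_compl_singleton.mem_nhds h0))
      exact h3.mono_of_mem_nhdsWithin h4
    · refine continuousWithinAt_of_notMem_closure ?_
      rw [isClosed_dn.closure_eq]
      exact hz'
  have h3 := h1.union h2
  refine h3.mono fun w _ => ?_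
  rcases le_total 0 w.im with h4 | h4
  · exact Or.inl h4
  · exact Or.inr h4

private lemma dif_G (n : ℕ) (E : ℂ → ℂ) (hD : DifferentiableOn ℂ E {z : ℂ | 0 < z.im}) :
    DifferentiableOn ℂ (fun w : ℂ => w ^ n * E (-1 / w)) {z : ℂ | 0 < z.im} := by
  intro z hz
  have hz' : 0 < z.im := hz
  have h0 : z ≠ 0 := by
    rintro rfl
    simp at hz'
  have h1 : DifferentiableAt ℂ E (-1 / z) := by
    refine (hD (-1 / z) ?_).differentiableAt (isOpen_up.mem_nhds ?_)
    · show 0 < (-1 / z).im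
      rw [im_neg_inv]
      exact div_pos hz' (Complex.normSq_pos.2 h0)
    · show 0 < (-1 / z).im
      rw [im_neg_inv]
      exact div_pos hz' (Complex.normSq_pos.2 h0)
  have h2 : DifferentiableAt ℂ (fun w : ℂ => -1 / w) z :=
    (differentiableAt_const _).div differentiableAt_id h0
  have h3 : DifferentiableAt ℂ (fun w : ℂ => E (-1 / w)) z :=
    DifferentiableAt.comp (f := fun w : ℂ => -1 / w) z h1 h2
  exact ((differentiableAt_id.pow n).mul h3).differentiableWithinAt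

private lemma RR_dif (n : ℕ) (E : ℂ → ℂ) (P : Polynomial ℂ)
    (hD : DifferentiableOn ℂ E {z : ℂ | 0 < z.im})
    (h : ∀ x : ℝ, x ≠ 0 → (x : ℂ) ^ n * (E (-1 / (x : ℂ)) + E (1 / (x : ℂ))) =
      E x + E (-x) + P.eval (x : ℂ)) :
    ∀ z ∈ ({0}ᶜ : Set ℂ), z.im ≠ 0 → DifferentiableAt ℂ (RR n E P) z := by
  intro z hz him
  have h0 : z ≠ 0 := hz
  rcases lt_or_gt_of_ne him with hz' | hz'
  · have h1 : DifferentiableAt ℂ E (1 / z) := by
      have hp : 0 < (1 / z).im := by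
        rw [im_inv']
        exact div_pos (by linarith) (Complex.normSq_pos.2 h0)
      exact (hD (1 / z) hp).differentiableAt (isOpen_up.mem_nhds hp)
    have h2 : DifferentiableAt ℂ (fun w : ℂ => 1 / w) z :=
      (differentiableAt_const _).div differentiableAt_id h0
    have h3 : DifferentiableAt ℂ (fun w : ℂ => E (1 / w)) z :=
      DifferentiableAt.comp (f := fun w : ℂ => 1 / w) z h1 h2
    have h4 : DifferentiableAt ℂ E (-z) := by
      have hp : 0 < (-z).im := by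
        rw [Complex.neg_im]
        linarith
      exact (hD (-z) hp).differentiableAt (isOpen_up.mem_nhds hp)
    have h5 : DifferentiableAt ℂ (fun w : ℂ => E (-w)) z :=
      DifferentiableAt.comp (f := fun w : ℂ => -w) z h4 differentiableAt_id.neg
    have h6 : DifferentiableAt ℂ (fun w => w ^ n * E (1 / w) - E (-w) - P.eval w) z :=
      (((differentiableAt_id.pow n).mul h3).sub h5).sub P.differentiable.differentiableAt
    refine h6.congr_of_eventuallyEq ?_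
    filter_upwards [isOpen_dn.mem_nhds (show z ∈ {z : ℂ | z.im < 0} from hz'),
      isOpen_compl_singleton.mem_nhds (show z ∈ ({0}ᶜ : Set ℂ) from h0)] with w hw hw0
    have hw' : w.im < 0 := hw
    exact RR_dn n E P h hw'.le hw0
  · have hz2 : 0 < z.im := hz'
    have h1 : DifferentiableAt ℂ E z := (hD z hz2).differentiableAt (isOpen_up.mem_nhds hz2)
    have h2 : DifferentiableAt ℂ (fun w : ℂ => w ^ n * E (-1 / w)) z :=
      (dif_G n E hD z hz2).differentiableAt (isOpen_up.mem_nhds hz2)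
    refine (h1.sub h2).congr_of_eventuallyEq ?_
    filter_upwards [isOpen_up.mem_nhds (show z ∈ {z : ℂ | 0 < z.im} from hz2)] with w hw
    have hw' : 0 < w.im := hw
    exact RR_up n E P hw'.le

private lemma RR_bd (n : ℕ) (E : ℂ → ℂ) (P : Polynomial ℂ) (hP : P.natDegree ≤ n)
    (C : ℝ) (hC : ∀ z : ℂ, 0 ≤ z.im → ‖E z‖ ≤ C) :
    ∃ C' : ℝ, ∀ z : ℂ, z ≠ 0 → ‖RR n E P z‖ ≤ C' * (1 + ‖z‖) ^ n := by
  have hC0 : 0 ≤ C := (norm_nonneg _).trans (hC 0 (by simp))
  refine ⟨2 * C + ∑ i ∈ Finset.range (n + 1), ‖P.coeff i‖, fun z _ => ?_⟩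
  have hz0 : 0 ≤ ‖z‖ := norm_nonneg z
  have h1 : 1 ≤ (1 + ‖z‖) ^ n := one_le_pow₀ (by linarith)
  have h2 : ‖z‖ ^ n ≤ (1 + ‖z‖) ^ n := pow_le_pow_left₀ hz0 (by linarith) n
  have hS : 0 ≤ ∑ i ∈ Finset.range (n + 1), ‖P.coeff i‖ :=
    Finset.sum_nonneg fun i _ => norm_nonneg _
  have h3 : ‖P.eval z‖ ≤ (∑ i ∈ Finset.range (n + 1), ‖P.coeff i‖) * (1 + ‖z‖) ^ n := by
    rw [Polynomial.eval_eq_sum_range' (Nat.lt_succ_of_le hP), Finset.sum_mul]
    refine (norm_sum_le _ _).trans (Finset.sum_le_sum fun i hi => ?_)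
    rw [norm_mul, norm_pow]
    refine mul_le_mul_of_nonneg_left ?_ (norm_nonneg _)
    have h9 : ‖z‖ ≤ 1 + ‖z‖ := by linarith
    refine (pow_le_pow_left₀ hz0 h9 i).trans ?_
    exact pow_le_pow_right₀ (by linarith) (Nat.lt_succ_iff.1 (Finset.mem_range.1 hi))
  have key : ∀ u v : ℂ, ‖u‖ ≤ C → ‖v‖ ≤ C → ‖u‖ + ‖z‖ ^ n * ‖v‖ ≤ 2 * C * (1 + ‖z‖) ^ n := by
    intro u v hu hv
    have h4 : ‖u‖ ≤ C * (1 + ‖z‖) ^ n := by
      calc ‖u‖ ≤ C * 1 := by rw [mul_one]; exact hu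
        _ ≤ C * (1 + ‖z‖) ^ n := mul_le_mul_of_nonneg_left h1 hC0
    have h5 : ‖z‖ ^ n * ‖v‖ ≤ (1 + ‖z‖) ^ n * C :=
      mul_le_mul h2 hv (norm_nonneg _) (by linarith)
    linarith
  have hpow : 0 ≤ (1 + ‖z‖) ^ n := by linarith
  unfold RR
  split_ifs with hz
  · have h6 : ‖E z - z ^ n * E (-1 / z)‖ ≤ ‖E z‖ + ‖z‖ ^ n * ‖E (-1 / z)‖ := by
      refine (norm_sub_le _ _).trans ?_
      rw [norm_mul, norm_pow]
    have h7 := key (E z) (E (-1 / z)) (hC z hz) (hC _ (by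
      rw [im_neg_inv]
      exact div_nonneg hz (Complex.normSq_nonneg z)))
    have h8 : 0 ≤ (∑ i ∈ Finset.range (n + 1), ‖P.coeff i‖) * (1 + ‖z‖) ^ n :=
      mul_nonneg hS hpow
    rw [add_mul]
    linarith
  · have hz' : z.im < 0 := not_le.1 hz
    have h6 : ‖z ^ n * E (1 / z) - E (-z) - P.eval z‖ ≤
        ‖E (-z)‖ + ‖z‖ ^ n * ‖E (1 / z)‖ + ‖P.eval z‖ := by
      refine (norm_sub_le _ _).trans ?_
      have h9 := norm_sub_le (z ^ n * E (1 / z)) (E (-z))
      rw [norm_mul, norm_pow] at h9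
      linarith
    have h7 := key (E (-z)) (E (1 / z)) (hC _ (by rw [Complex.neg_im]; linarith)) (hC _ (by
      rw [im_inv']
      exact div_nonneg (by linarith) (Complex.normSq_nonneg z)))
    rw [add_mul]
    linarith

private lemma im_sc (r : ℝ) (z : ℂ) : ((r : ℂ) * z).im = r * z.im := by
  rw [Complex.im_ofReal_mul]

private lemma it_scale (c : ℂ) (f : ℂ → ℂ) (k : ℕ) :
    iteratedDeriv k (fun w => f (c * w)) = fun w => c ^ k * iteratedDeriv k f (c * w) := by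
  induction k with
  | zero =>
    funext w
    simp
  | succ k ih =>
    rw [iteratedDeriv_succ, ih, iteratedDeriv_succ]
    funext w
    rw [deriv_const_mul_field]
    have h := deriv_comp_mul_left c (iteratedDeriv k f) w
    simp only [smul_eq_mul] at h
    rw [h]
    ring

/-- Module CA5-H. -/
theorem hCA5 : ZCA5 := by
  intro h1 h2 h3 h4 a b P hP hb0 hs hx z hz
  obtain ⟨n, hn⟩ : ∃ n : ℕ, n = 2 * a := ⟨_, rfl⟩
  rw [← hn] at hP hs
  obtain ⟨c1, c2, ⟨C, c3⟩, c4⟩ := h1 n b hb0 hs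
  obtain ⟨r, hrd⟩ : ∃ r : ℝ, r = (Real.sqrt 2)⁻¹ := ⟨_, rfl⟩
  have hr0 : 0 < r := by
    rw [hrd]
    positivity
  have hr2 : r ^ 2 = 1 / 2 := by
    rw [hrd, inv_pow, Real.sq_sqrt (by norm_num)]
    norm_num
  have hrc0 : (r : ℂ) ≠ 0 := by exact_mod_cast hr0.ne'
  have hrc2 : (r : ℂ) ^ 2 = 1 / 2 := by
    have h := congrArg (fun t : ℝ => (t : ℂ)) hr2
    push_cast at h
    exact h
  set E : ℂ → ℂ := fun w => EE n b ((r : ℂ) * w) with hEdef
  have d1 : ContinuousOn E {z : ℂ | 0 ≤ z.im} := by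
    refine ContinuousOn.comp (t := {z : ℂ | 0 ≤ z.im}) c1
      (continuous_const.mul continuous_id).continuousOn ?_
    intro w hw
    have hw' : 0 ≤ w.im := hw
    show 0 ≤ ((r : ℂ) * w).im
    rw [im_sc]
    exact mul_nonneg hr0.le hw'
  have d2 : DifferentiableOn ℂ E {z : ℂ | 0 < z.im} := by
    refine DifferentiableOn.comp (t := {z : ℂ | 0 < z.im}) c2
      ((differentiable_id.const_mul (r : ℂ)).differentiableOn) ?_
    intro w hw
    have hw' : 0 < w.im := hw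
    show 0 < ((r : ℂ) * w).im
    rw [im_sc]
    exact mul_pos hr0 hw'
  have d3 : ∀ w : ℂ, 0 ≤ w.im → ‖E w‖ ≤ C := by
    intro w hw
    refine c3 _ ?_
    rw [im_sc]
    exact mul_nonneg hr0.le hw
  have d4 : ∀ w : ℂ, 0 < w.im →
      iteratedDeriv (n + 1) E w = (r : ℂ) ^ (n + 1) * FF b ((r : ℂ) * w) := by
    intro w hw
    rw [hEdef, it_scale]
    show (r : ℂ) ^ (n + 1) * iteratedDeriv (n + 1) (EE n b) ((r : ℂ) * w) = _
    rw [c4 _ (by rw [im_sc]; exact mul_pos hr0 hw)]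
  obtain ⟨Q, hQ⟩ : ∃ Q : Polynomial ℂ, Q = P.comp (Polynomial.C (r : ℂ) * Polynomial.X) :=
    ⟨_, rfl⟩
  have hQd : Q.natDegree ≤ n := by
    rw [hQ]
    refine Polynomial.natDegree_comp_le.trans ?_
    have h : (Polynomial.C (r : ℂ) * Polynomial.X).natDegree ≤ 1 :=
      (Polynomial.natDegree_C_mul_le _ _).trans Polynomial.natDegree_X_le
    calc P.natDegree * (Polynomial.C (r : ℂ) * Polynomial.X).natDegree ≤ P.natDegree * 1 :=
          Nat.mul_le_mul_left _ h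
      _ ≤ n := by rw [mul_one]; exact hP
  have hQe : ∀ w : ℂ, Q.eval w = P.eval ((r : ℂ) * w) := by
    intro w
    rw [hQ, Polynomial.eval_comp, Polynomial.eval_mul, Polynomial.eval_C, Polynomial.eval_X]
  have hx' : ∀ x : ℝ, x ≠ 0 → (x : ℂ) ^ n * (E (-1 / (x : ℂ)) + E (1 / (x : ℂ))) =
      E x + E (-x) + Q.eval (x : ℂ) := by
    intro x hx0
    have hxc : (x : ℂ) ≠ 0 := by exact_mod_cast hx0
    have h := hx (r * x) (mul_ne_zero hr0.ne' hx0)
    push_cast at h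
    have e2 : 2 * ((r : ℂ) * x) * (r : ℂ) = x := by
      have : 2 * ((r : ℂ) * x) * (r : ℂ) = 2 * (r : ℂ) ^ 2 * x := by ring
      rw [this, hrc2]
      ring
    have hne : 2 * ((r : ℂ) * (x : ℂ)) ≠ 0 := mul_ne_zero two_ne_zero (mul_ne_zero hrc0 hxc)
    have a1 : (r : ℂ) * (-1 / (x : ℂ)) = -1 / (2 * ((r : ℂ) * (x : ℂ))) := by
      rw [eq_div_iff hne, mul_div_assoc', div_mul_eq_mul_div, div_eq_iff hxc]
      linear_combination -e2
    have a2 : (r : ℂ) * (1 / (x : ℂ)) = 1 / (2 * ((r : ℂ) * (x : ℂ))) := by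
      rw [eq_div_iff hne, mul_div_assoc', div_mul_eq_mul_div, div_eq_iff hxc]
      linear_combination e2
    have a3 : (r : ℂ) * (-(x : ℂ)) = -((r : ℂ) * (x : ℂ)) := by ring
    have a4 : (2 : ℂ) ^ a * ((r : ℂ) * (x : ℂ)) ^ (2 * a) = (x : ℂ) ^ n := by
      rw [mul_pow, pow_mul (r : ℂ), hrc2, ← mul_assoc, ← mul_pow, hn]
      norm_num
    rw [a4] at h
    show (x : ℂ) ^ n * (EE n b ((r : ℂ) * (-1 / (x : ℂ))) + EE n b ((r : ℂ) * (1 / (x : ℂ)))) =
      EE n b ((r : ℂ) * (x : ℂ)) + EE n b ((r : ℂ) * (-(x : ℂ))) + Q.eval (x : ℂ)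
    rw [a1, a2, a3, hQe, hn]
    rw [hn] at h
    exact h
  have hdiff : DifferentiableOn ℂ (RR n E Q) {0}ᶜ :=
    h2 _ _ isOpen_compl_singleton (RR_cont n _ Q d1 hx') (RR_dif n _ Q d2 hx')
  obtain ⟨C', hC'⟩ := RR_bd n E Q hQd C d3
  obtain ⟨y, hy⟩ : ∃ y : ℂ, y = ((r⁻¹ : ℝ) : ℂ) * z := ⟨_, rfl⟩
  have hyim : 0 < y.im := by
    rw [hy, im_sc]
    exact mul_pos (inv_pos.2 hr0) hz
  have hy0 : y ≠ 0 := by
    intro h0
    rw [h0] at hyim
    simp at hyim
  have hz0 : z ≠ 0 := by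
    rintro rfl
    simp at hz
  have h5 : iteratedDeriv (n + 1) (RR n E Q) y = 0 := h3 n _ C' hdiff hC' y hy0
  have h6 : RR n E Q =ᶠ[nhds y] (E - fun w : ℂ => w ^ n * E (-1 / w)) := by
    filter_upwards [isOpen_up.mem_nhds (show y ∈ {z : ℂ | 0 < z.im} from hyim)] with w hw
    have hw' : 0 < w.im := hw
    exact RR_up n _ Q hw'.le
  rw [h6.iteratedDeriv_eq] at h5
  have hE : ContDiffAt ℂ ((n + 1 : ℕ) : WithTop ℕ∞) E y :=
    (d2.analyticAt (isOpen_up.mem_nhds (show y ∈ {z : ℂ | 0 < z.im} from hyim))).contDiffAt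
  have hG : ContDiffAt ℂ ((n + 1 : ℕ) : WithTop ℕ∞) (fun w : ℂ => w ^ n * E (-1 / w)) y :=
    ((dif_G n _ d2).analyticAt
      (isOpen_up.mem_nhds (show y ∈ {z : ℂ | 0 < z.im} from hyim))).contDiffAt
  rw [iteratedDeriv_sub hE hG, d4 y hyim, h4 n _ d2 y hyim] at h5
  have hy1 : 0 < (-1 / y).im := by
    rw [im_neg_inv]
    exact div_pos hyim (Complex.normSq_pos.2 hy0)
  rw [d4 _ hy1] at h5
  have h7 : y ^ (n + 2) ≠ 0 := pow_ne_zero _ hy0
  have hyc : y = (r : ℂ)⁻¹ * z := by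
    rw [hy]
    push_cast
    ring
  have e1 : (r : ℂ) * y = z := by
    rw [hyc, mul_inv_cancel_left₀ hrc0]
  have e2 : (r : ℂ) * (-1 / y) = -1 / (2 * z) := by
    have h2z : (2 : ℂ) * z ≠ 0 := mul_ne_zero two_ne_zero hz0
    rw [eq_div_iff h2z, mul_div_assoc', div_mul_eq_mul_div, div_eq_iff hy0, ← e1]
    linear_combination (-2 * y) * hrc2
  rw [e1, e2] at h5
  have hrn : (r : ℂ) ^ (n + 1) ≠ 0 := pow_ne_zero _ hrc0
  have h8 : FF b z - (y ^ (n + 2))⁻¹ * FF b (-1 / (2 * z)) = 0 := by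
    have h9 : (r : ℂ) ^ (n + 1) * (FF b z - (y ^ (n + 2))⁻¹ * FF b (-1 / (2 * z))) = 0 := by
      rw [← h5]
      ring
    exact (mul_eq_zero.1 h9).resolve_left hrn
  have h10 : FF b (-1 / (2 * z)) = y ^ (n + 2) * FF b z := by
    have h11 : y ^ (n + 2) * (FF b z - (y ^ (n + 2))⁻¹ * FF b (-1 / (2 * z))) = 0 := by
      rw [h8, mul_zero]
    rw [mul_sub, mul_inv_cancel_left₀ h7] at h11
    linear_combination -h11
  have e3 : y ^ (n + 2) = (2 : ℂ) ^ (a + 1) * z ^ (2 * a + 2) := by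
    have e4 : n + 2 = 2 * (a + 1) := by omega
    have e5 : 2 * a + 2 = 2 * (a + 1) := by omega
    have e6 : y ^ 2 = 2 * z ^ 2 := by
      rw [← e1, mul_pow, hrc2]
      ring
    rw [e4, e5, pow_mul, pow_mul, e6, mul_pow]
  rw [h10, e3]

end Pool.Agent.Helper7.THN
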